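import Pool.Agent.U308.Sph.Geo2

/-!
# Unit spheres in three dimensions: families of at least five unit spheres
-/

set_option autoImplicit false

namespace Pool.Agent.U308.Sph

open scoped InnerProductSpace

lemma isq {a b : E} (h : dist a b = 1) : ⟪a - b, a - b⟫_ℝ = 1 := by
  rw [real_inner_self_eq_norm_sq, ← dist_eq_norm, h]; norm_num

lemma isq' (p : E) {a b : E} (h : dist a b = 1) : ⟪a - p - (b - p), a - p - (b - p)⟫_ℝ = 1 := by
  rw [sub_sub_sub_cancel_right]; exact isq h

lemma core_fun (P Y : Fin 5 → E) (hd : ∀ i j, j ≠ i → dist (P i) (Y j) = 1)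
    (hY : Function.Injective Y) (i j k l m : Fin 5) (hij : i ≠ j) (hik : i ≠ k) (hil : i ≠ l)
    (him : i ≠ m) (hjk : j ≠ k) (hjl : j ≠ l) (hjm : j ≠ m) (hkl : k ≠ l) (hkm : k ≠ m)
    (hlm : l ≠ m)
    (ht : 0 < ((dist (P i) (Y i)) ^ 2 - 1) * ((dist (P j) (Y j)) ^ 2 - 1)) : False := by
  refine core (e3 := Y k - P i) (e4 := Y l - P i) (e5 := Y m - P i) (N := P j - P i)
    (z1 := Y i - P i) (z2 := Y j - P i) (q3 := P k - P i) (q4 := P l - P i) (q5 := P m - P i)
    (isq (by rw [dist_comm]; exact hd _ _ hik.symm)) (isq (by rw [dist_comm]; exact hd _ _ hil.symm))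
    (isq (by rw [dist_comm]; exact hd _ _ him.symm))
    (fun h => hkl (hY (sub_left_injective h))) (fun h => hkm (hY (sub_left_injective h)))
    (fun h => hlm (hY (sub_left_injective h)))
    (isq' _ (hd _ _ hjk.symm)) (isq' _ (hd _ _ hjl.symm)) (isq' _ (hd _ _ hjm.symm))
    (isq' _ (hd _ _ hij)) (isq (by rw [dist_comm]; exact hd _ _ hij.symm)) ?_
    (isq' _ (hd _ _ hik)) (isq' _ (hd _ _ hjk)) (isq' _ (hd _ _ hkl.symm)) (isq' _ (hd _ _ hkm.symm))
    (isq' _ (hd _ _ hil)) (isq' _ (hd _ _ hjl)) (isq' _ (hd _ _ hkl)) (isq' _ (hd _ _ hlm.symm))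
    (isq' _ (hd _ _ him)) (isq' _ (hd _ _ hjm)) (isq' _ (hd _ _ hkm)) (isq' _ (hd _ _ hlm))
  rw [sub_sub_sub_cancel_right, real_inner_self_eq_norm_sq, real_inner_self_eq_norm_sq,
    ← dist_eq_norm, ← dist_eq_norm, dist_comm (Y i) (P i)]
  exact ht

lemma five (Y : Fin 5 → E) (hY : Function.Injective Y)
    (h : ∀ i, ∃ p, ∀ j, j ≠ i → dist p (Y j) = 1) : ∃ p, ∀ j, dist p (Y j) = 1 := by
  choose P hP using h
  by_contra hcon
  push Not at hcon
  have ht : ∀ i, (dist (P i) (Y i)) ^ 2 - 1 ≠ 0 := by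
    intro i h0
    obtain ⟨j, hj⟩ := hcon (P i)
    by_cases hji : j = i
    · subst hji
      apply hj
      have h1 : (dist (P j) (Y j)) ^ 2 = 1 := by linarith
      have h2 : 0 ≤ dist (P j) (Y j) := dist_nonneg
      nlinarith
    · exact hj (hP i j hji)
  have h0 := ht 0
  have h1 := ht 1
  have h2 := ht 2
  set t0 := (dist (P 0) (Y 0)) ^ 2 - 1 with ht0
  set t1 := (dist (P 1) (Y 1)) ^ 2 - 1 with ht1
  set t2 := (dist (P 2) (Y 2)) ^ 2 - 1 with ht2
  have h3 : 0 < t0 * t1 ∨ 0 < t0 * t2 ∨ 0 < t1 * t2 := by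
    rcases lt_or_gt_of_ne h0 with a0 | a0 <;> rcases lt_or_gt_of_ne h1 with a1 | a1 <;>
      rcases lt_or_gt_of_ne h2 with a2 | a2
    · exact Or.inl (mul_pos_of_neg_of_neg a0 a1)
    · exact Or.inl (mul_pos_of_neg_of_neg a0 a1)
    · exact Or.inr (Or.inl (mul_pos_of_neg_of_neg a0 a2))
    · exact Or.inr (Or.inr (mul_pos a1 a2))
    · exact Or.inr (Or.inr (mul_pos_of_neg_of_neg a1 a2))
    · exact Or.inr (Or.inl (mul_pos a0 a2))
    · exact Or.inl (mul_pos a0 a1)
    · exact Or.inl (mul_pos a0 a1)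
  rcases h3 with h3 | h3 | h3
  · exact core_fun P Y hP hY 0 1 2 3 4 (by decide) (by decide) (by decide) (by decide) (by decide)
      (by decide) (by decide) (by decide) (by decide) (by decide) h3
  · exact core_fun P Y hP hY 0 2 1 3 4 (by decide) (by decide) (by decide) (by decide) (by decide)
      (by decide) (by decide) (by decide) (by decide) (by decide) h3
  · exact core_fun P Y hP hY 1 2 0 3 4 (by decide) (by decide) (by decide) (by decide) (by decide)
      (by decide) (by decide) (by decide) (by decide) (by decide) h3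

/-- orthogonality of the differences -/
lemma orth {p q a b : E} (h1 : dist p a = 1) (h2 : dist p b = 1) (h3 : dist q a = 1)
    (h4 : dist q b = 1) : ⟪a - b, p - q⟫_ℝ = 0 := by
  have e1 := isq h1
  have e2 := isq h2
  have e3 := isq h3
  have e4 := isq h4
  rw [inner_sub_self] at e1 e2 e3 e4
  rw [inner_sub_left, inner_sub_right, inner_sub_right, real_inner_comm p a, real_inner_comm q a,
    real_inner_comm p b, real_inner_comm q b]
  linarith

/-- three distinct unit spheres have at most two common points -/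
lemma k33 {p q r a b c : E} (hpq : p ≠ q) (hpr : p ≠ r) (hqr : q ≠ r) (hab : a ≠ b) (hac : a ≠ c)
    (hbc : b ≠ c) (pa : dist p a = 1) (pb : dist p b = 1) (pc : dist p c = 1)
    (qa : dist q a = 1) (qb : dist q b = 1) (qc : dist q c = 1)
    (ra : dist r a = 1) (rb : dist r b = 1) (rc : dist r c = 1) : False := by
  have hli : LinearIndependent ℝ ![a - b, a - c, p - q, p - r] := by
    rw [Fintype.linearIndependent_iff]
    intro g hg
    simp only [Fin.sum_univ_four, Matrix.cons_val_zero, Matrix.cons_val_one,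
      Matrix.cons_val] at hg
    set w := g 0 • (a - b) + g 1 • (a - c) with hw
    set w' := g 2 • (p - q) + g 3 • (p - r) with hw'
    have hs : w + w' = 0 := by rw [← hg, hw, hw']; module
    have ho : ⟪w, w'⟫_ℝ = 0 := by
      rw [hw, hw']
      simp only [inner_add_left, inner_add_right, real_inner_smul_left, real_inner_smul_right,
        orth pa pb qa qb, orth pa pb ra rb, orth pa pc qa qc, orth pa pc ra rc]
      ring
    have hww : ⟪w, w⟫_ℝ = 0 := by
      have : w = -w' := eq_neg_of_add_eq_zero_left hs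
      calc ⟪w, w⟫_ℝ = ⟪w, -w'⟫_ℝ := by rw [← this]
        _ = 0 := by rw [inner_neg_right, ho, neg_zero]
    have w0 : w = 0 := (inner_self_eq_zero (𝕜 := ℝ)).1 hww
    have w0' : w' = 0 := by rw [w0, zero_add] at hs; exact hs
    have n1 := noncol (e1 := a - p) (e2 := b - p) (e3 := c - p)
      (isq (by rw [dist_comm]; exact pa)) (isq (by rw [dist_comm]; exact pb))
      (isq (by rw [dist_comm]; exact pc)) (fun h => hab (sub_left_injective h))
      (fun h => hac (sub_left_injective h)) (fun h => hbc (sub_left_injective h)) (g 0) (g 1) (by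
        rw [sub_sub_sub_cancel_right, sub_sub_sub_cancel_right]; exact w0)
    have n2 := noncol (e1 := p - a) (e2 := q - a) (e3 := r - a)
      (isq pa) (isq qa) (isq ra) (fun h => hpq (sub_left_injective h))
      (fun h => hpr (sub_left_injective h)) (fun h => hqr (sub_left_injective h)) (g 2) (g 3) (by
        rw [sub_sub_sub_cancel_right, sub_sub_sub_cancel_right]; exact w0')
    intro i
    fin_cases i
    · exact n1.1
    · exact n1.2
    · exact n2.1
    · exact n2.2
  have := hli.fintype_card_le_finrank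
  simp at this

lemma inj5 {a b c d e : E} (hab : a ≠ b) (hac : a ≠ c) (had : a ≠ d) (hae : a ≠ e) (hbc : b ≠ c)
    (hbd : b ≠ d) (hbe : b ≠ e) (hcd : c ≠ d) (hce : c ≠ e) (hde : d ≠ e) :
    Function.Injective ![a, b, c, d, e] := by
  intro i j h
  fin_cases i <;> fin_cases j <;>
    first
      | rfl
      | (exfalso; revert h; simp [hab, hac, had, hae, hbc, hbd, hbe, hcd, hce, hde, hab.symm,
          hac.symm, had.symm, hae.symm, hbc.symm, hbd.symm, hbe.symm, hcd.symm, hce.symm,
          hde.symm])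

theorem main (S : Set E) (h5 : 5 ≤ S.encard)
    (h : ∀ T : Set E, T ⊆ S → T.encard = 4 → ∃ p : E, ∀ c ∈ T, p ∈ Metric.sphere c 1) :
    ∃ p : E, ∀ c ∈ S, p ∈ Metric.sphere c 1 := by
  classical
  -- five members
  have hfive : ∀ Y : Fin 5 → E, Function.Injective Y → (∀ i, Y i ∈ S) →
      ∃ p, ∀ j, dist p (Y j) = 1 := by
    intro Y hY hS
    apply five Y hY
    intro i
    obtain ⟨p, hp⟩ := h (((Finset.univ.erase i).image Y : Finset E) : Set E) (by
      intro x hx
      simp only [Finset.coe_image, Set.mem_image, Finset.mem_coe] at hx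
      obtain ⟨j, _, rfl⟩ := hx
      exact hS j) (by
      rw [Set.encard_coe_eq_coe_finsetCard, Finset.card_image_of_injective _ hY,
        Finset.card_erase_of_mem (Finset.mem_univ i), Finset.card_univ, Fintype.card_fin]
      rfl)
    refine ⟨p, fun j hj => ?_⟩
    have := hp (Y j) (by
      simp only [Finset.coe_image, Set.mem_image, Finset.mem_coe]
      exact ⟨j, Finset.mem_erase.2 ⟨hj, Finset.mem_univ j⟩, rfl⟩)
    exact this
  by_contra hcon
  push Not at hcon
  -- five distinct members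
  obtain ⟨T, hTS, hT⟩ := Set.exists_subset_encard_eq h5
  have hfin : T.Finite := Set.finite_of_encard_eq_coe (k := 5) hT
  have hcard : hfin.toFinset.card = 5 := by
    have := hfin.encard_eq_coe_toFinset_card
    rw [hT] at this
    exact_mod_cast this.symm
  let eqv := Finset.equivFinOfCardEq hcard
  let Y : Fin 5 → E := fun i => (eqv.symm i : E)
  have hYinj : Function.Injective Y := fun i j hij => eqv.symm.injective (Subtype.ext hij)
  have hYS : ∀ i, Y i ∈ S := fun i => hTS (hfin.mem_toFinset.1 (eqv.symm i).2)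
  obtain ⟨p, hp⟩ := hfive Y hYinj hYS
  obtain ⟨cp, hcpS, hcp⟩ := hcon p
  have hcpY : ∀ i, Y i ≠ cp := by
    intro i hi
    exact hcp (by rw [← hi]; exact hp i)
  have y01 : Y 0 ≠ Y 1 := hYinj.ne (by decide)
  have y02 : Y 0 ≠ Y 2 := hYinj.ne (by decide)
  have y03 : Y 0 ≠ Y 3 := hYinj.ne (by decide)
  have y12 : Y 1 ≠ Y 2 := hYinj.ne (by decide)
  have y13 : Y 1 ≠ Y 3 := hYinj.ne (by decide)
  have y23 : Y 2 ≠ Y 3 := hYinj.ne (by decide)
  obtain ⟨q, hq⟩ := hfive ![Y 0, Y 1, Y 2, Y 3, cp]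
    (inj5 y01 y02 y03 (hcpY 0) y12 y13 (hcpY 1) y23 (hcpY 2) (hcpY 3)) (by
      intro i
      fin_cases i
      · exact hYS 0
      · exact hYS 1
      · exact hYS 2
      · exact hYS 3
      · exact hcpS)
  have q0 : dist q (Y 0) = 1 := hq 0
  have q1 : dist q (Y 1) = 1 := hq 1
  have q2 : dist q (Y 2) = 1 := hq 2
  have q4 : dist q cp = 1 := hq 4
  obtain ⟨cq, hcqS, hcq⟩ := hcon q
  have c0 : Y 0 ≠ cq := fun hi => hcq (by rw [← hi]; exact q0)
  have c1 : Y 1 ≠ cq := fun hi => hcq (by rw [← hi]; exact q1)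
  have c2 : Y 2 ≠ cq := fun hi => hcq (by rw [← hi]; exact q2)
  have c4 : cp ≠ cq := fun hi => hcq (by rw [← hi]; exact q4)
  obtain ⟨r, hr⟩ := hfive ![Y 0, Y 1, Y 2, cp, cq]
    (inj5 y01 y02 (hcpY 0) c0 y12 (hcpY 1) c1 (hcpY 2) c2 c4) (by
      intro i
      fin_cases i
      · exact hYS 0
      · exact hYS 1
      · exact hYS 2
      · exact hcpS
      · exact hcqS)
  have r0 : dist r (Y 0) = 1 := hr 0
  have r1 : dist r (Y 1) = 1 := hr 1
  have r2 : dist r (Y 2) = 1 := hr 2
  have r3 : dist r cp = 1 := hr 3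
  have r4 : dist r cq = 1 := hr 4
  have hpq : p ≠ q := fun e => hcp (by rw [e]; exact q4)
  have hpr : p ≠ r := fun e => hcp (by rw [e]; exact r3)
  have hqr : q ≠ r := fun e => hcq (by rw [e]; exact r4)
  exact k33 hpq hpr hqr y01 y02 y12 (hp 0) (hp 1) (hp 2) q0 q1 q2 r0 r1 r2

end Pool.Agent.U308.Sph
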