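import Mathlib

/-!
# Unit spheres in three dimensions: the algebraic part
-/

set_option autoImplicit false

namespace Pool.Agent.U308.Sph

/-- the invariant relation of a triangle inscribed in a circle whose sides belong to a dual conic -/
lemma alg1 (A1 A2 A3 u3 u4 u5 v3 v4 v5 H S μ g x y : ℝ)
    (hS : S = 2 * (A1 * A2 + A1 * A3 + A2 * A3) - A1 ^ 2 - A2 ^ 2 - A3 ^ 2) (hS0 : S ≠ 0)
    (hH : H * S = S - 2 * (A1 * A2 * A3))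
    (hx : x = u3 + u4 + u5) (hy : y = v3 + v4 + v5)
    (hμ : μ = (x - 1) * (y - 1)) (hμ0 : μ ≠ 0)
    (R1 : x ^ 2 - 1 = 2 * (A1 * u4 * u5 + A2 * u3 * u5 + A3 * u3 * u4))
    (R2 : y ^ 2 - 1 = 2 * (A1 * v4 * v5 + A2 * v3 * v5 + A3 * v3 * v4))
    (P3 : u3 * v3 * S = μ * (A1 * (2 - A1)))
    (P4 : u4 * v4 * S = μ * (A2 * (2 - A2)))
    (P5 : u5 * v5 * S = μ * (A3 * (2 - A3)))
    (hg : g = x * y - (A1 * (u4 * v5 + u5 * v4) + A2 * (u3 * v5 + u5 * v3)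
      + A3 * (u3 * v4 + u4 * v3))) :
    (x + 1) * (y + 1) = (1 - H) * (2 * x * y + 2 * g - μ * (1 + 3 * H)) := by
  have hxy : x * y = (u3 + u4 + u5) * (v3 + v4 + v5) := by rw [hx, hy]
  have G1 : S ^ 2 * ((x ^ 2 - 1) * (y ^ 2 - 1)) =
      4 * μ * (A1 * A2 * A3) * (S * (x * y + g) + μ * (-2 * S + 3 * (A1 * A2 * A3))) := by
    linear_combination (S ^ 2 * (y ^ 2 - 1)) * R1
      + (S ^ 2 * 2 * (A1 * u4 * u5 + A2 * u3 * u5 + A3 * u3 * u4)) * R2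
      + 4 * (A1 ^ 2 * (u5 * v5 * S)) * P4 + 4 * A1 ^ 2 * (μ * (A2 * (2 - A2))) * P5
      + 4 * (A2 ^ 2 * (u5 * v5 * S)) * P3 + 4 * A2 ^ 2 * (μ * (A1 * (2 - A1))) * P5
      + 4 * (A3 ^ 2 * (u4 * v4 * S)) * P3 + 4 * A3 ^ 2 * (μ * (A1 * (2 - A1))) * P4
      + 4 * A1 * A2 * S * (u3 * v4 + u4 * v3) * P5 + 4 * A1 * A3 * S * (u3 * v5 + u5 * v3) * P4
      + 4 * A2 * A3 * S * (u4 * v5 + u5 * v4) * P3
      - 8 * μ * (A1 * A2 * A3) * (P3 + P4 + P5)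
      - 4 * μ * (A1 * A2 * A3) * S * hg - 8 * μ * (A1 * A2 * A3) * S * hxy
      + 8 * μ ^ 2 * (A1 * A2 * A3) * hS
  have h2 : 2 * (A1 * A2 * A3) = (1 - H) * S := by linear_combination hH
  have G2 : (S ^ 2 * μ) * ((x + 1) * (y + 1)) =
      (S ^ 2 * μ) * ((1 - H) * (2 * x * y + 2 * g - μ * (1 + 3 * H))) := by
    have e1 : S ^ 2 * ((x ^ 2 - 1) * (y ^ 2 - 1)) = (S ^ 2 * μ) * ((x + 1) * (y + 1)) := by
      rw [hμ]; ring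
    rw [← e1, G1]
    linear_combination (2 * μ * (S * (x * y + g) + μ * (-2 * S + 3 * (A1 * A2 * A3)))
      + 3 * μ ^ 2 * (1 - H) * S) * h2
  exact mul_left_cancel₀ (mul_ne_zero (pow_ne_zero 2 hS0) hμ0) G2

end Pool.Agent.U308.Sph
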