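import Mathlib

/-!
# Unit spheres in three dimensions: the condition given by one of the points
-/

set_option autoImplicit false

namespace Pool.Agent.U308.Sph

lemma alg2 (a b c H S κ r q3 q4 q5 n3 n4 n5 u3 u4 u5 v3 v4 v5 ξ y : ℝ)
    (hS : S = (1 - a ^ 2) + (1 - b ^ 2) + (1 - c ^ 2) + 2 * (a * b - c) + 2 * (a * c - b)
      + 2 * (b * c - a))
    (hΔ : 1 + 2 * a * b * c - a ^ 2 - b ^ 2 - c ^ 2 = H * S) (hH : H ≠ 0)
    (N3 : n3 + c * n4 + b * n5 = 2 * H) (N4 : c * n3 + n4 + a * n5 = 2 * H)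
    (N5 : b * n3 + a * n4 + n5 = 2 * H) (Ns : n3 + n4 + n5 = 2)
    (Q3 : q3 + c * q4 + b * q5 = r) (Q4 : c * q3 + q4 + a * q5 = κ / 2)
    (Q5 : b * q3 + a * q4 + q5 = κ / 2)
    (Qn : q3 * r + (q4 + q5) * (κ / 2) = κ) (hκ : κ ≠ 0)
    (hx : u3 + u4 + u5 = 1 + ξ) (hy : v3 + v4 + v5 = y)
    (E1 : κ - 2 * (u3 * r + (u4 + u5) * (κ / 2)) + 2 * ξ * (n3 * r + (n4 + n5) * (κ / 2))
      - 4 * H * ξ = 0)
    (E2 : v3 * r + (v4 + v5) * (κ / 2) = κ / 2)
    (hμ : ξ * (y - 1) ≠ 0) :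
    u3 * v3 * S = ξ * (y - 1) * (1 - a ^ 2) := by
  have hn : n3 * S = 2 * ((1 - a ^ 2) + (a * b - c) + (a * c - b)) := by
    have : H * (n3 * S) = H * (2 * ((1 - a ^ 2) + (a * b - c) + (a * c - b))) := by
      linear_combination (1 - a ^ 2) * N3 + (a * b - c) * N4 + (a * c - b) * N5 - n3 * hΔ
    exact mul_left_cancel₀ hH this
  -- the norm of `q`
  have d3 : (H * S) * q3 = (1 - a ^ 2) * r + (a * b - c) * (κ / 2) + (a * c - b) * (κ / 2) := by
    linear_combination (1 - a ^ 2) * Q3 + (a * b - c) * Q4 + (a * c - b) * Q5 - q3 * hΔ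
  have d4 : (H * S) * q4 = (a * b - c) * r + (1 - b ^ 2) * (κ / 2) + (b * c - a) * (κ / 2) := by
    linear_combination (a * b - c) * Q3 + (1 - b ^ 2) * Q4 + (b * c - a) * Q5 - q4 * hΔ
  have d5 : (H * S) * q5 = (a * c - b) * r + (b * c - a) * (κ / 2) + (1 - c ^ 2) * (κ / 2) := by
    linear_combination (a * c - b) * Q3 + (b * c - a) * Q4 + (1 - c ^ 2) * Q5 - q5 * hΔ
  set ω := r - κ / 2 with hω
  have hr : r = ω + κ / 2 := by rw [hω]; ring
  have E3 : (1 - a ^ 2) * ω ^ 2 + (S * κ / 4) * (κ - 4 * H + 2 * ω * n3) = 0 := by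
    have h1 : (H * S) * κ = (1 - a ^ 2) * r ^ 2
        + ((1 - b ^ 2) + (1 - c ^ 2) + 2 * (b * c - a)) * (κ ^ 2 / 4)
        + ((a * b - c) + (a * c - b)) * r * κ := by
      linear_combination r * d3 + (κ / 2) * d4 + (κ / 2) * d5 - (H * S) * Qn
    rw [hr] at h1
    linear_combination -h1 + (κ ^ 2 / 4) * hS + (κ * ω / 2) * hn
  have E1' : -2 * u3 * ω + ξ * (κ + 2 * n3 * ω - 4 * H) = 0 := by
    rw [hr] at E1
    linear_combination E1 + κ * hx - ξ * κ * Ns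
  have E2' : v3 * ω = (κ / 2) * (1 - y) := by
    rw [hr] at E2
    linear_combination E2 - (κ / 2) * hy
  have hω0 : ω ≠ 0 := by
    intro h0
    rw [h0] at E2'
    have : (κ / 2) * (1 - y) = 0 := by rw [← E2']; ring
    rcases mul_eq_zero.1 this with h | h
    · exact hκ (by linarith)
    · exact hμ (by rw [show y = 1 by linarith]; ring)
  have F : ξ * (1 - a ^ 2) * ω + (S * κ / 2) * u3 = 0 := by
    have : ω * (ξ * (1 - a ^ 2) * ω + (S * κ / 2) * u3) = 0 := by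
      linear_combination ξ * E3 - (S * κ / 4) * E1'
    rcases mul_eq_zero.1 this with h | h
    · exact absurd h hω0
    · exact h
  have : (κ / 2) * (u3 * v3 * S) = (κ / 2) * (ξ * (y - 1) * (1 - a ^ 2)) := by
    linear_combination v3 * F - ξ * (1 - a ^ 2) * E2'
  exact mul_left_cancel₀ (by intro h; exact hκ (by linarith)) this

end Pool.Agent.U308.Sph
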