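import Mathlib

/-!
# Unit spheres in three dimensions: the inequality
-/

set_option autoImplicit false

namespace Pool.Agent.U308.Sph

/-- the case of opposite signs -/
lemma kpos_neg (s b h : ℝ) (_ : 0 ≤ s) (hs1 : s ≤ 1) (hb0 : 0 ≤ b) (hbh : b < h) (h1 : h < 1)
    (hh : 0 < 3 * h ^ 2 / 2 - 1) :
    0 < h ^ 2 - (2 * h ^ 2 - 1) * (s * b) - (3 * h ^ 2 / 2 - 1) * ((h + s) * (h - b)) := by
  have h0 : 0 < h := lt_of_le_of_lt hb0 hbh
  have c0 : 0 < h * (h - (3 * h ^ 2 / 2 - 1) * (h + s)) := by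
    apply mul_pos h0
    have e1 : (3 * h ^ 2 / 2 - 1) * (h + s) ≤ (3 * h ^ 2 / 2 - 1) * (h + 1) :=
      mul_le_mul_of_nonneg_left (by linarith) hh.le
    have e2 : 0 < (1 - h) * (1 + 3 * h + 3 / 2 * h ^ 2) := by
      apply mul_pos (by linarith); positivity
    nlinarith [e1, e2]
  have c1 : 0 < h * (h - (2 * h ^ 2 - 1) * s) := by
    apply mul_pos h0
    have e0 : 0 < 2 * h ^ 2 - 1 := by nlinarith
    have e1 : (2 * h ^ 2 - 1) * s ≤ (2 * h ^ 2 - 1) * 1 :=
      mul_le_mul_of_nonneg_left hs1 e0.le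
    have e2 : 0 < (1 - h) * (1 + 2 * h) := by
      apply mul_pos (by linarith); positivity
    nlinarith [e1, e2]
  have key : h * (h ^ 2 - (2 * h ^ 2 - 1) * (s * b) - (3 * h ^ 2 / 2 - 1) * ((h + s) * (h - b)))
      = (h * (h - (3 * h ^ 2 / 2 - 1) * (h + s))) * (h - b)
        + (h * (h - (2 * h ^ 2 - 1) * s)) * b := by ring
  have : 0 < h * (h ^ 2 - (2 * h ^ 2 - 1) * (s * b)
      - (3 * h ^ 2 / 2 - 1) * ((h + s) * (h - b))) := by
    rw [key]
    have := mul_pos c0 (sub_pos.2 hbh)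
    have := mul_nonneg c1.le hb0
    linarith
  exact (mul_pos_iff_of_pos_left h0).1 this

/-- bilinear bound -/
lemma bil (s b h : ℝ) (hs0 : 0 ≤ s) (hs1 : s ≤ 1) (hb0 : 0 ≤ b) (hb1 : b ≤ 1) (h0 : 0 < h)
    (h1 : h < 1) : 0 ≤ 2 * h ^ 2 + 2 * (s * b) - h ^ 2 * ((h + s) * (h + b)) := by
  have key : 2 * h ^ 2 + 2 * (s * b) - h ^ 2 * ((h + s) * (h + b)) =
      (1 - s) * (1 - b) * (2 * h ^ 2 - h ^ 4) + s * (1 - b) * (2 * h ^ 2 - h ^ 4 - h ^ 3)
      + (1 - s) * b * (2 * h ^ 2 - h ^ 4 - h ^ 3)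
      + s * b * (2 * h ^ 2 + 2 - h ^ 4 - 2 * h ^ 3 - h ^ 2) := by ring
  rw [key]
  have hh2 : h ^ 2 ≤ 1 := by nlinarith
  have a1 : 0 ≤ 2 * h ^ 2 - h ^ 4 := by nlinarith [sq_nonneg h]
  have a2 : 0 ≤ 2 * h ^ 2 - h ^ 4 - h ^ 3 := by
    have : 2 * h ^ 2 - h ^ 4 - h ^ 3 = h ^ 2 * ((1 - h ^ 2) + (1 - h)) := by ring
    rw [this]; apply mul_nonneg (sq_nonneg h); linarith
  have a3 : 0 ≤ 2 * h ^ 2 + 2 - h ^ 4 - 2 * h ^ 3 - h ^ 2 := by
    have : 2 * h ^ 2 + 2 - h ^ 4 - 2 * h ^ 3 - h ^ 2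
      = (1 - h) * (2 + 2 * h + 3 * h ^ 2 + h ^ 3) := by ring
    rw [this]; apply mul_nonneg (by linarith); positivity
  have s1 : 0 ≤ 1 - s := by linarith
  have b1 : 0 ≤ 1 - b := by linarith
  have := mul_nonneg (mul_nonneg s1 b1) a1
  have := mul_nonneg (mul_nonneg hs0 b1) a2
  have := mul_nonneg (mul_nonneg s1 hb0) a2
  have := mul_nonneg (mul_nonneg hs0 hb0) a3
  linarith

lemma kpos (α β h : ℝ) (hα : α ^ 2 ≤ 1) (hβ : β ^ 2 ≤ 1) (h0 : 0 < h) (h1 : h < 1)
    (hl : 0 < (α - h) * (β - h)) :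
    0 < h ^ 2 * (1 + α * β) + (1 - h ^ 2) * |α * β| + (1 - 3 * h ^ 2 / 2) * ((α - h) * (β - h)) := by
  have hα1 : -1 ≤ α ∧ α ≤ 1 := abs_le.1 (by rw [← sq_le_one_iff_abs_le_one]; exact hα)
  have hβ1 : -1 ≤ β ∧ β ≤ 1 := abs_le.1 (by rw [← sq_le_one_iff_abs_le_one]; exact hβ)
  obtain ⟨hα1, hα2⟩ := hα1
  obtain ⟨hβ1, hβ2⟩ := hβ1
  have hh1 : h ^ 2 < 1 := by nlinarith
  have hh0 : 0 < h ^ 2 := by positivity
  have hab : -1 ≤ α * β := by nlinarith [sq_nonneg (α + β)]
  by_cases hc : 0 ≤ 1 - 3 * h ^ 2 / 2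
  · have t1 := mul_nonneg hc hl.le
    rcases le_or_gt 0 (α * β) with hs | hs
    · rw [abs_of_nonneg hs]
      have := mul_nonneg (sub_nonneg.2 hh1.le) hs
      nlinarith [mul_nonneg hh0.le hs]
    · rw [abs_of_neg hs]
      have := mul_pos (sub_pos.2 hh1) (neg_pos.2 hs)
      have := mul_nonneg hh0.le (by linarith : 0 ≤ 1 + α * β)
      linarith
  · push Not at hc
    have hc' : 0 < 3 * h ^ 2 / 2 - 1 := by linarith
    have hc2 : 3 * h ^ 2 / 2 - 1 < h ^ 2 / 2 := by linarith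
    rcases le_or_gt 0 (α * β) with hs | hs
    · rw [abs_of_nonneg hs]
      have e1 : (3 * h ^ 2 / 2 - 1) * ((α - h) * (β - h)) < h ^ 2 / 2 * ((α - h) * (β - h)) :=
        mul_lt_mul_of_pos_right hc2 hl
      have e2 : 0 ≤ 2 * h ^ 2 + 2 * (α * β) - h ^ 2 * ((α - h) * (β - h)) := by
        rcases le_or_gt 0 α with ha | ha
        · rcases le_or_gt 0 β with hb | hb
          · have : (α - h) * (β - h) ≤ 1 := by nlinarith
            nlinarith
          · have : α = 0 := by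
              by_contra hne
              have : 0 < α := lt_of_le_of_ne ha (Ne.symm hne)
              nlinarith
            subst this
            have := bil 0 (-β) h le_rfl zero_le_one (by linarith) (by linarith) h0 h1
            nlinarith [this]
        · have hb : β ≤ 0 := by
            by_contra hne
            push Not at hne
            nlinarith
          have := bil (-α) (-β) h (by linarith) (by linarith) (by linarith) (by linarith) h0 h1
          nlinarith [this]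
      nlinarith [e1, e2]
    · rw [abs_of_neg hs]
      rcases lt_or_ge α 0 with ha | ha
      · have hb : 0 < β := by
          by_contra hne
          push Not at hne
          nlinarith [mul_nonneg_of_nonpos_of_nonpos ha.le hne]
        have hbh : β < h := by
          by_contra hne
          push Not at hne
          nlinarith [mul_nonneg (by linarith : 0 ≤ h - α) (by linarith : 0 ≤ β - h)]
        have := kpos_neg (-α) β h (by linarith) (by linarith) hb.le hbh h1 hc'
        nlinarith [this]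
      · have ha' : 0 < α := by
          rcases eq_or_lt_of_le ha with h' | h'
          · rw [← h'] at hs; simp at hs
          · exact h'
        have hb : β < 0 := by
          by_contra hne
          push Not at hne
          nlinarith [mul_nonneg ha hne]
        have hah : α < h := by
          by_contra hne
          push Not at hne
          nlinarith [mul_nonneg (by linarith : 0 ≤ h - β) (by linarith : 0 ≤ α - h)]
        have := kpos_neg (-β) α h (by linarith) (by linarith) ha hah h1 hc'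
        nlinarith [this]

lemma ineq (H x y g : ℝ) (hH0 : 0 < H) (hH1 : H < 1) (hx : H * x ^ 2 ≤ 1) (hy : H * y ^ 2 ≤ 1)
    (hg : (g - H * x * y) ^ 2 ≤ (1 - H * x ^ 2) * (1 - H * y ^ 2))
    (hμ : 0 < (x - 1) * (y - 1))
    (hC : (x + 1) * (y + 1) = (1 - H) * (2 * x * y + 2 * g - ((x - 1) * (y - 1)) * (1 + 3 * H))) :
    False := by
  set h := Real.sqrt H with hh
  have h0 : 0 < h := Real.sqrt_pos.2 hH0
  have hsq : h ^ 2 = H := Real.sq_sqrt hH0.le
  have h1 : h < 1 := by nlinarith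
  have hα : (h * x) ^ 2 ≤ 1 := by rw [mul_pow, hsq]; exact hx
  have hβ : (h * y) ^ 2 ≤ 1 := by rw [mul_pow, hsq]; exact hy
  have hl : 0 < (h * x - h) * (h * y - h) := by
    have : (h * x - h) * (h * y - h) = h ^ 2 * ((x - 1) * (y - 1)) := by ring
    rw [this]; positivity
  have K := kpos (h * x) (h * y) h hα hβ h0 h1 hl
  have habs : |h * x * (h * y)| ≤ 1 := by
    rw [abs_mul]
    have a1 : |h * x| ≤ 1 := by rw [← sq_le_one_iff_abs_le_one]; exact hα
    have a2 : |h * y| ≤ 1 := by rw [← sq_le_one_iff_abs_le_one]; exact hβ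
    nlinarith [abs_nonneg (h * x), abs_nonneg (h * y)]
  have hX : g - H * x * y ≤ 1 - |h * x * (h * y)| := by
    apply le_of_sq_le_sq _ (by linarith)
    refine hg.trans ?_
    have e1 : |h * x * (h * y)| ^ 2 = (H * x * y) ^ 2 := by
      rw [sq_abs]
      have : h * x * (h * y) = h ^ 2 * x * y := by ring
      rw [this, hsq]
    have e2 : 2 * |h * x * (h * y)| ≤ H * x ^ 2 + H * y ^ 2 := by
      rw [abs_mul]
      have := two_mul_le_add_sq (|h * x|) (|h * y|)
      rw [sq_abs, sq_abs, mul_pow, mul_pow, hsq] at this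
      linarith
    nlinarith [e1, e2]
  have hT : (1 - H) * (g - H * x * y) = 1 + H ^ 2 * (x * y)
      + (1 - 3 * H / 2) * (H * ((x - 1) * (y - 1))) := by
    linear_combination (-1 / 2 : ℝ) * hC
  have hX2 : (1 - H) * (g - H * x * y) ≤ (1 - H) * (1 - |h * x * (h * y)|) :=
    mul_le_mul_of_nonneg_left hX (by linarith)
  have e3 : (h * x - h) * (h * y - h) = H * ((x - 1) * (y - 1)) := by rw [← hsq]; ring
  have e4 : h * x * (h * y) = H * (x * y) := by rw [← hsq]; ring
  rw [e3, hsq] at K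
  rw [hT] at hX2
  have e5 : H * (1 + h * x * (h * y)) = H + H ^ 2 * (x * y) := by rw [e4]; ring
  rw [e5] at K
  nlinarith [K, hX2]

end Pool.Agent.U308.Sph
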