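import Pool.Agent.U308.Sph.Alg
import Pool.Agent.U308.Sph.Alg2
import Pool.Agent.U308.Sph.Ineq

/-!
# Unit spheres in three dimensions: five points all of whose quadruples lie on unit spheres
-/

set_option autoImplicit false

namespace Pool.Agent.U308.Sph

open scoped InnerProductSpace

/-- three-dimensional Euclidean space -/
abbrev E := EuclideanSpace ℝ (Fin 3)

lemma inner_lt_one {e f : E} (he : ⟪e, e⟫_ℝ = 1) (hf : ⟪f, f⟫_ℝ = 1) (hne : e ≠ f) :
    ⟪e, f⟫_ℝ < 1 := by
  have h : 0 < ⟪e - f, e - f⟫_ℝ := by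
    rw [real_inner_self_eq_norm_sq]
    have : 0 < ‖e - f‖ := norm_pos_iff.2 (sub_ne_zero.2 hne)
    positivity
  rw [inner_sub_left, inner_sub_right, inner_sub_right, he, hf, real_inner_comm e f] at h
  linarith

/-- three distinct points of a unit sphere are not collinear -/
lemma noncol {e1 e2 e3 : E} (h1 : ⟪e1, e1⟫_ℝ = 1) (h2 : ⟪e2, e2⟫_ℝ = 1) (h3 : ⟪e3, e3⟫_ℝ = 1)
    (h12 : e1 ≠ e2) (h13 : e1 ≠ e3) (h23 : e2 ≠ e3) (s t : ℝ)
    (h : s • (e1 - e2) + t • (e1 - e3) = 0) : s = 0 ∧ t = 0 := by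
  have a12 := inner_lt_one h1 h2 h12
  have a13 := inner_lt_one h1 h3 h13
  have a23 := inner_lt_one h2 h3 h23
  have i1 : ⟪e1, s • (e1 - e2) + t • (e1 - e3)⟫_ℝ = 0 := by rw [h, inner_zero_right]
  have i2 : ⟪e2, s • (e1 - e2) + t • (e1 - e3)⟫_ℝ = 0 := by rw [h, inner_zero_right]
  have i3 : ⟪e3, s • (e1 - e2) + t • (e1 - e3)⟫_ℝ = 0 := by rw [h, inner_zero_right]
  rw [inner_add_right, real_inner_smul_right, real_inner_smul_right, inner_sub_right,
    inner_sub_right] at i1 i2 i3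
  rw [h1] at i1
  rw [h2, real_inner_comm e1 e2] at i2
  rw [h3, real_inner_comm e1 e3, real_inner_comm e2 e3] at i3
  set c12 := ⟪e1, e2⟫_ℝ
  set c13 := ⟪e1, e3⟫_ℝ
  set c23 := ⟪e2, e3⟫_ℝ
  have f1 : t * (1 - c13 + c12 - c23) = 0 := by linear_combination i1 + i2
  have f2 : s * (1 - c12 + c13 - c23) = 0 := by linear_combination i1 + i3
  rcases mul_eq_zero.1 f1 with ht | ht
  · rw [ht] at i1
    have : s * (1 - c12) = 0 := by linear_combination i1
    rcases mul_eq_zero.1 this with hs | hs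
    · exact ⟨hs, ht⟩
    · linarith
  · rcases mul_eq_zero.1 f2 with hs | hs
    · rw [hs] at i1
      have : t * (1 - c13) = 0 := by linear_combination i1
      rcases mul_eq_zero.1 this with ht' | ht'
      · exact ⟨hs, ht'⟩
      · linarith
    · linarith

/-- coordinates with respect to three distinct unit vectors of a plane not through the origin -/
lemma coords {e3 e4 e5 N : E} (h3 : ⟪e3, e3⟫_ℝ = 1) (h4 : ⟪e4, e4⟫_ℝ = 1) (h5 : ⟪e5, e5⟫_ℝ = 1)
    (h34 : e3 ≠ e4) (h35 : e3 ≠ e5) (h45 : e4 ≠ e5) (H : ℝ) (hH : H ≠ 0)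
    (n3 : ⟪N, e3⟫_ℝ = 2 * H) (n4 : ⟪N, e4⟫_ℝ = 2 * H) (n5 : ⟪N, e5⟫_ℝ = 2 * H) (v : E) :
    ∃ s t r : ℝ, v = s • e3 + t • e4 + r • e5 := by
  have hli : LinearIndependent ℝ ![e3, e4, e5] := by
    rw [Fintype.linearIndependent_iff]
    intro g hg
    simp only [Fin.sum_univ_three, Matrix.cons_val_zero, Matrix.cons_val_one,
      Matrix.cons_val_two, Matrix.head_cons, Matrix.tail_cons] at hg
    have hs : g 0 + g 1 + g 2 = 0 := by
      have : ⟪N, g 0 • e3 + g 1 • e4 + g 2 • e5⟫_ℝ = 0 := by rw [hg, inner_zero_right]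
      rw [inner_add_right, inner_add_right, real_inner_smul_right, real_inner_smul_right,
        real_inner_smul_right, n3, n4, n5] at this
      have h2 : (2 * H) * (g 0 + g 1 + g 2) = 0 := by linear_combination this
      rcases mul_eq_zero.1 h2 with h | h
      · exact absurd (by linarith) hH
      · exact h
    have h0 : g 0 = -g 1 - g 2 := by linarith
    have := noncol h3 h4 h5 h34 h35 h45 (-g 1) (-g 2) (by
      rw [h0] at hg
      rw [← hg]
      module)
    obtain ⟨e1, e2⟩ := this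
    intro i
    fin_cases i
    · simp only [Fin.zero_eta]; linarith
    · simp only [Fin.mk_one]; linarith
    · simp only [Fin.reduceFinMk]; linarith
  have hb := (hli.span_eq_top_of_card_eq_finrank (by simp))
  have hv : v ∈ Submodule.span ℝ (Set.range ![e3, e4, e5]) := by rw [hb]; trivial
  rw [Submodule.mem_span_range_iff_exists_fun] at hv
  obtain ⟨c, hc⟩ := hv
  refine ⟨c 0, c 1, c 2, ?_⟩
  rw [← hc]
  simp [Fin.sum_univ_three]

end Pool.Agent.U308.Sph
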