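import Pool.Agent.U308.Sph.Geo

/-!
# Unit spheres in three dimensions: five points all of whose quadruples lie on unit spheres
-/

set_option autoImplicit false

namespace Pool.Agent.U308.Sph

open scoped InnerProductSpace

lemma inner_comb {e3 e4 e5 : E} {a b c : ℝ} (h3 : ⟪e3, e3⟫_ℝ = 1) (h4 : ⟪e4, e4⟫_ℝ = 1)
    (h5 : ⟪e5, e5⟫_ℝ = 1) (ha : ⟪e4, e5⟫_ℝ = a) (hb : ⟪e3, e5⟫_ℝ = b) (hc : ⟪e3, e4⟫_ℝ = c)
    (s3 s4 s5 t3 t4 t5 : ℝ) :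
    ⟪s3 • e3 + s4 • e4 + s5 • e5, t3 • e3 + t4 • e4 + t5 • e5⟫_ℝ =
      s3 * t3 + s4 * t4 + s5 * t5 + c * (s3 * t4 + s4 * t3) + b * (s3 * t5 + s5 * t3)
      + a * (s4 * t5 + s5 * t4) := by
  have ha' : ⟪e5, e4⟫_ℝ = a := by rw [real_inner_comm]; exact ha
  have hb' : ⟪e5, e3⟫_ℝ = b := by rw [real_inner_comm]; exact hb
  have hc' : ⟪e4, e3⟫_ℝ = c := by rw [real_inner_comm]; exact hc
  simp only [inner_add_left, inner_add_right, real_inner_smul_left, real_inner_smul_right,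
    h3, h4, h5, ha, hb, hc, ha', hb', hc']
  ring

lemma inner_sub_self (v w : E) : ⟪v - w, v - w⟫_ℝ = ⟪v, v⟫_ℝ - 2 * ⟪v, w⟫_ℝ + ⟪w, w⟫_ℝ := by
  rw [inner_sub_left, inner_sub_right, inner_sub_right, real_inner_comm v w]
  ring

lemma inner_comb1 (q e3 e4 e5 : E) (t3 t4 t5 : ℝ) :
    ⟪q, t3 • e3 + t4 • e4 + t5 • e5⟫_ℝ = t3 * ⟪q, e3⟫_ℝ + t4 * ⟪q, e4⟫_ℝ + t5 * ⟪q, e5⟫_ℝ := by
  simp only [inner_add_right, real_inner_smul_right]

/-- the condition given by one of the three points `q` -/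
lemma pcond {e3 e4 e5 N z1 z2 q : E} {a b c H S ξ y u3 u4 u5 v3 v4 v5 n3 n4 n5 : ℝ}
    (h3 : ⟪e3, e3⟫_ℝ = 1) (h4 : ⟪e4, e4⟫_ℝ = 1) (h5 : ⟪e5, e5⟫_ℝ = 1)
    (ha : ⟪e4, e5⟫_ℝ = a) (hb : ⟪e3, e5⟫_ℝ = b) (hc : ⟪e3, e4⟫_ℝ = c)
    (hco : ∀ v : E, ∃ s t r : ℝ, v = s • e3 + t • e4 + r • e5)
    (hN : N = n3 • e3 + n4 • e4 + n5 • e5) (hU : z1 + ξ • N = u3 • e3 + u4 • e4 + u5 • e5)
    (hV : z2 = v3 • e3 + v4 • e4 + v5 • e5) (hH : H ≠ 0)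
    (N3 : ⟪N, e3⟫_ℝ = 2 * H) (N4 : ⟪N, e4⟫_ℝ = 2 * H) (N5 : ⟪N, e5⟫_ℝ = 2 * H)
    (Ns : n3 + n4 + n5 = 2)
    (hz1 : ⟪z1, z1⟫_ℝ = 1 - 4 * H * ξ) (hz2 : ⟪z2, z2⟫_ℝ = 1)
    (hx : u3 + u4 + u5 = 1 + ξ) (hy : v3 + v4 + v5 = y)
    (hS : S = (1 - a ^ 2) + (1 - b ^ 2) + (1 - c ^ 2) + 2 * (a * b - c) + 2 * (a * c - b)
      + 2 * (b * c - a))
    (hΔ : 1 + 2 * a * b * c - a ^ 2 - b ^ 2 - c ^ 2 = H * S)
    (hμ : ξ * (y - 1) ≠ 0)
    (q1 : ⟪q - z1, q - z1⟫_ℝ = 1) (q2 : ⟪q - z2, q - z2⟫_ℝ = 1)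
    (q4 : ⟪q - e4, q - e4⟫_ℝ = 1) (q5 : ⟪q - e5, q - e5⟫_ℝ = 1) :
    u3 * v3 * S = ξ * (y - 1) * (1 - a ^ 2) := by
  obtain ⟨s3, s4, s5, hq⟩ := hco q
  rw [inner_sub_self] at q1 q2 q4 q5
  set κ := ⟪q, q⟫_ℝ with hκ
  have hξ : ξ ≠ 0 := fun h => hμ (by rw [h, zero_mul])
  have hκ0 : κ ≠ 0 := by
    intro h0
    have : q = 0 := (inner_self_eq_zero (𝕜 := ℝ)).1 (hκ ▸ h0)
    rw [this, inner_zero_left, h0, hz1] at q1
    have : H * ξ = 0 := by linarith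
    rcases mul_eq_zero.1 this with h | h
    · exact hH h
    · exact hξ h
  have r4 : ⟪q, e4⟫_ℝ = κ / 2 := by rw [h4] at q4; linarith
  have r5 : ⟪q, e5⟫_ℝ = κ / 2 := by rw [h5] at q5; linarith
  have rz2 : ⟪q, z2⟫_ℝ = κ / 2 := by rw [hz2] at q2; linarith
  have rz1 : ⟪q, z1⟫_ℝ = (κ - 4 * H * ξ) / 2 := by rw [hz1] at q1; linarith
  have ha' : ⟪e5, e4⟫_ℝ = a := by rw [real_inner_comm]; exact ha
  have hb' : ⟪e5, e3⟫_ℝ = b := by rw [real_inner_comm]; exact hb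
  have hc' : ⟪e4, e3⟫_ℝ = c := by rw [real_inner_comm]; exact hc
  have N3' : n3 + c * n4 + b * n5 = 2 * H := by
    rw [real_inner_comm, hN, inner_comb1, h3, hc, hb] at N3; linarith
  have N4' : c * n3 + n4 + a * n5 = 2 * H := by
    rw [real_inner_comm, hN, inner_comb1, h4, hc', ha] at N4; linarith
  have N5' : b * n3 + a * n4 + n5 = 2 * H := by
    rw [real_inner_comm, hN, inner_comb1, h5, hb', ha'] at N5; linarith
  have Q3 : s3 + c * s4 + b * s5 = ⟪q, e3⟫_ℝ := by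
    rw [real_inner_comm, hq, inner_comb1, h3, hc, hb]; ring
  have Q4 : c * s3 + s4 + a * s5 = κ / 2 := by
    rw [← r4, real_inner_comm, hq, inner_comb1, h4, hc', ha]; ring
  have Q5 : b * s3 + a * s4 + s5 = κ / 2 := by
    rw [← r5, real_inner_comm, hq, inner_comb1, h5, hb', ha']; ring
  have Qn : s3 * ⟪q, e3⟫_ℝ + (s4 + s5) * (κ / 2) = κ := by
    have : ⟪q, q⟫_ℝ = ⟪q, s3 • e3 + s4 • e4 + s5 • e5⟫_ℝ := by rw [← hq]
    rw [inner_comb1, r4, r5] at this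
    have h' : κ = s3 * ⟪q, e3⟫_ℝ + s4 * (κ / 2) + s5 * (κ / 2) := this
    linarith
  have qU : ⟪q, z1 + ξ • N⟫_ℝ = u3 * ⟪q, e3⟫_ℝ + (u4 + u5) * (κ / 2) := by
    rw [hU, inner_comb1, r4, r5]; ring
  have qN : ⟪q, N⟫_ℝ = n3 * ⟪q, e3⟫_ℝ + (n4 + n5) * (κ / 2) := by
    rw [hN, inner_comb1, r4, r5]; ring
  rw [inner_add_right, real_inner_smul_right, rz1, qN] at qU
  have qV : v3 * ⟪q, e3⟫_ℝ + (v4 + v5) * (κ / 2) = κ / 2 := by
    have := rz2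
    rw [hV, inner_comb1, r4, r5] at this
    linarith
  exact alg2 a b c H S κ ⟪q, e3⟫_ℝ s3 s4 s5 n3 n4 n5 u3 u4 u5 v3 v4 v5 ξ y hS hΔ hH N3' N4' N5' Ns
    Q3 Q4 Q5 Qn hκ0 hx hy (by linarith) qV hμ

/-- the core: there are no five points of this kind -/
lemma core {e3 e4 e5 N z1 z2 q3 q4 q5 : E}
    (h3 : ⟪e3, e3⟫_ℝ = 1) (h4 : ⟪e4, e4⟫_ℝ = 1) (h5 : ⟪e5, e5⟫_ℝ = 1)
    (h34 : e3 ≠ e4) (h35 : e3 ≠ e5) (h45 : e4 ≠ e5)
    (g3 : ⟪N - e3, N - e3⟫_ℝ = 1) (g4 : ⟪N - e4, N - e4⟫_ℝ = 1) (g5 : ⟪N - e5, N - e5⟫_ℝ = 1)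
    (hz1 : ⟪N - z1, N - z1⟫_ℝ = 1) (hz2 : ⟪z2, z2⟫_ℝ = 1)
    (ht : 0 < (⟪z1, z1⟫_ℝ - 1) * (⟪N - z2, N - z2⟫_ℝ - 1))
    (q31 : ⟪q3 - z1, q3 - z1⟫_ℝ = 1) (q32 : ⟪q3 - z2, q3 - z2⟫_ℝ = 1)
    (q34 : ⟪q3 - e4, q3 - e4⟫_ℝ = 1) (q35 : ⟪q3 - e5, q3 - e5⟫_ℝ = 1)
    (q41 : ⟪q4 - z1, q4 - z1⟫_ℝ = 1) (q42 : ⟪q4 - z2, q4 - z2⟫_ℝ = 1)
    (q43 : ⟪q4 - e3, q4 - e3⟫_ℝ = 1) (q45 : ⟪q4 - e5, q4 - e5⟫_ℝ = 1)
    (q51 : ⟪q5 - z1, q5 - z1⟫_ℝ = 1) (q52 : ⟪q5 - z2, q5 - z2⟫_ℝ = 1)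
    (q53 : ⟪q5 - e3, q5 - e3⟫_ℝ = 1) (q54 : ⟪q5 - e4, q5 - e4⟫_ℝ = 1) : False := by
  obtain ⟨H, hHdef⟩ : ∃ H : ℝ, ⟪N, N⟫_ℝ = 4 * H := ⟨⟪N, N⟫_ℝ / 4, by ring⟩
  rw [inner_sub_self] at g3 g4 g5 hz1
  rw [inner_sub_self N z2] at ht
  rw [hHdef, h3] at g3
  rw [hHdef, h4] at g4
  rw [hHdef, h5] at g5
  rw [hHdef] at hz1
  rw [hHdef, hz2] at ht
  have N3 : ⟪N, e3⟫_ℝ = 2 * H := by linarith
  have N4 : ⟪N, e4⟫_ℝ = 2 * H := by linarith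
  have N5 : ⟪N, e5⟫_ℝ = 2 * H := by linarith
  have hH0 : 0 < H := by
    have h0 : 0 ≤ ⟪N, N⟫_ℝ := real_inner_self_nonneg
    rcases eq_or_lt_of_le h0 with h | h
    · have hN0 : N = 0 := (inner_self_eq_zero (𝕜 := ℝ)).1 h.symm
      rw [hN0] at ht
      simp only [inner_zero_left] at ht
      have : H = 0 := by rw [hHdef] at h; linarith
      rw [this] at ht
      norm_num at ht
    · rw [hHdef] at h; linarith
  have hH : H ≠ 0 := hH0.ne'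
  have hco := coords h3 h4 h5 h34 h35 h45 H hH N3 N4 N5
  obtain ⟨ξ, hξ⟩ : ∃ ξ : ℝ, ⟪N, z1⟫_ℝ = 2 * H * (1 - ξ) :=
    ⟨1 - ⟪N, z1⟫_ℝ / (2 * H), by field_simp; ring⟩
  obtain ⟨y, hy⟩ : ∃ y : ℝ, ⟪N, z2⟫_ℝ = 2 * H * y := ⟨⟪N, z2⟫_ℝ / (2 * H), by field_simp⟩
  have hz1' : ⟪z1, z1⟫_ℝ = 1 - 4 * H * ξ := by rw [hξ] at hz1; linarith
  rw [hz1', hy] at ht
  have hμ : 0 < ξ * (y - 1) := by
    have : 0 < (16 * H ^ 2) * (ξ * (y - 1)) := by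
      have e : (1 - 4 * H * ξ - 1) * (4 * H - 2 * (2 * H * y) + 1 - 1)
        = (16 * H ^ 2) * (ξ * (y - 1)) := by ring
      rw [← e]; exact ht
    exact (mul_pos_iff_of_pos_left (by positivity)).1 this
  obtain ⟨n3, n4, n5, hN⟩ := hco N
  obtain ⟨u3, u4, u5, hU⟩ := hco (z1 + ξ • N)
  obtain ⟨v3, v4, v5, hV⟩ := hco z2
  obtain ⟨a, ha⟩ : ∃ a : ℝ, ⟪e4, e5⟫_ℝ = a := ⟨_, rfl⟩
  obtain ⟨b, hb⟩ : ∃ b : ℝ, ⟪e3, e5⟫_ℝ = b := ⟨_, rfl⟩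
  obtain ⟨c, hc⟩ : ∃ c : ℝ, ⟪e3, e4⟫_ℝ = c := ⟨_, rfl⟩
  have ha' : ⟪e5, e4⟫_ℝ = a := by rw [real_inner_comm]; exact ha
  have hb' : ⟪e5, e3⟫_ℝ = b := by rw [real_inner_comm]; exact hb
  have hc' : ⟪e4, e3⟫_ℝ = c := by rw [real_inner_comm]; exact hc
  have la : a < 1 := ha ▸ inner_lt_one h4 h5 h45
  have lb : b < 1 := hb ▸ inner_lt_one h3 h5 h35
  have lc : c < 1 := hc ▸ inner_lt_one h3 h4 h34
  -- sums of coordinates
  have Ns : n3 + n4 + n5 = 2 := by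
    have : ⟪N, N⟫_ℝ = ⟪N, n3 • e3 + n4 • e4 + n5 • e5⟫_ℝ := by rw [← hN]
    rw [inner_comb1, hHdef, N3, N4, N5] at this
    have h2 : (2 * H) * (n3 + n4 + n5) = (2 * H) * 2 := by linarith
    exact mul_left_cancel₀ (by positivity) h2
  have hx : u3 + u4 + u5 = 1 + ξ := by
    have : ⟪N, z1 + ξ • N⟫_ℝ = ⟪N, u3 • e3 + u4 • e4 + u5 • e5⟫_ℝ := by rw [← hU]
    rw [inner_comb1, inner_add_right, real_inner_smul_right, hHdef, hξ, N3, N4, N5] at this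
    have h2 : (2 * H) * (u3 + u4 + u5) = (2 * H) * (1 + ξ) := by linarith
    exact mul_left_cancel₀ (by positivity) h2
  have hys : v3 + v4 + v5 = y := by
    rw [hV, inner_comb1, N3, N4, N5] at hy
    have h2 : (2 * H) * (v3 + v4 + v5) = (2 * H) * y := by linarith
    exact mul_left_cancel₀ (by positivity) h2
  have N3' : n3 + c * n4 + b * n5 = 2 * H := by
    have := N3
    rw [real_inner_comm, hN, inner_comb1, h3, hc, hb] at this; linarith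
  have N4' : c * n3 + n4 + a * n5 = 2 * H := by
    have := N4
    rw [real_inner_comm, hN, inner_comb1, h4, hc', ha] at this; linarith
  have N5' : b * n3 + a * n4 + n5 = 2 * H := by
    have := N5
    rw [real_inner_comm, hN, inner_comb1, h5, hb', ha'] at this; linarith
  obtain ⟨S, hS⟩ : ∃ S : ℝ, S = (1 - a ^ 2) + (1 - b ^ 2) + (1 - c ^ 2) + 2 * (a * b - c)
    + 2 * (a * c - b) + 2 * (b * c - a) := ⟨_, rfl⟩
  have hΔ : 1 + 2 * a * b * c - a ^ 2 - b ^ 2 - c ^ 2 = H * S := by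
    have h2 : 2 * (1 + 2 * a * b * c - a ^ 2 - b ^ 2 - c ^ 2) = 2 * (H * S) := by
      rw [hS]
      linear_combination (1 - a ^ 2 + (a * b - c) + (a * c - b)) * N3'
        + (1 - b ^ 2 + (a * b - c) + (b * c - a)) * N4'
        + (1 - c ^ 2 + (a * c - b) + (b * c - a)) * N5'
        - (1 + 2 * a * b * c - a ^ 2 - b ^ 2 - c ^ 2) * Ns
    linarith
  -- the three conditions
  have P3 := pcond h3 h4 h5 ha hb hc hco hN hU hV hH N3 N4 N5 Ns hz1' hz2 hx hys hS hΔ hμ.ne'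
    q31 q32 q34 q35
  have P4 : u4 * v4 * S = ξ * (y - 1) * (1 - b ^ 2) := by
    refine pcond (e3 := e4) (e4 := e3) (e5 := e5) (a := b) (b := a) (c := c) h4 h3 h5 hb ha hc'
      (fun v => ?_) (n3 := n4) (n4 := n3) (n5 := n5) (u3 := u4) (u4 := u3) (u5 := u5)
      (v3 := v4) (v4 := v3) (v5 := v5) (N := N) (z1 := z1) (z2 := z2) (ξ := ξ) (y := y)
      ?_ ?_ ?_ hH N4 N3 N5 ?_ hz1' hz2 ?_ ?_ ?_ ?_ hμ.ne' q41 q42 q43 q45
    · obtain ⟨s, t, r, h⟩ := hco v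
      exact ⟨t, s, r, by rw [h]; module⟩
    · rw [hN]; module
    · rw [hU]; module
    · rw [hV]; module
    · linarith
    · linarith
    · linarith
    · rw [hS]; ring
    · rw [← hΔ]; ring
  have P5 : u5 * v5 * S = ξ * (y - 1) * (1 - c ^ 2) := by
    refine pcond (e3 := e5) (e4 := e3) (e5 := e4) (a := c) (b := a) (c := b) h5 h3 h4 hc ha' hb'
      (fun v => ?_) (n3 := n5) (n4 := n3) (n5 := n4) (u3 := u5) (u4 := u3) (u5 := u4)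
      (v3 := v5) (v4 := v3) (v5 := v4) (N := N) (z1 := z1) (z2 := z2) (ξ := ξ) (y := y)
      ?_ ?_ ?_ hH N5 N3 N4 ?_ hz1' hz2 ?_ ?_ ?_ ?_ hμ.ne' q51 q52 q53 q54
    · obtain ⟨s, t, r, h⟩ := hco v
      exact ⟨r, s, t, by rw [h]; module⟩
    · rw [hN]; module
    · rw [hU]; module
    · rw [hV]; module
    · linarith
    · linarith
    · linarith
    · rw [hS]; ring
    · rw [← hΔ]; ring
  -- norms and inner product of `U` and `V`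
  obtain ⟨g, hg⟩ : ∃ g : ℝ, ⟪z1 + ξ • N, z2⟫_ℝ = g := ⟨_, rfl⟩
  have hUU : ⟪z1 + ξ • N, z1 + ξ • N⟫_ℝ = 1 := by
    rw [inner_add_left, inner_add_right, inner_add_right, real_inner_smul_left,
      real_inner_smul_right, real_inner_smul_left, real_inner_smul_right, real_inner_comm N z1,
      hHdef, hz1', hξ]
    ring
  have R1 : (1 + ξ) ^ 2 - 1 = 2 * ((1 - a) * u4 * u5 + (1 - b) * u3 * u5 + (1 - c) * u3 * u4) := by
    have := hUU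
    rw [hU, inner_comb h3 h4 h5 ha hb hc] at this
    rw [← hx]
    linear_combination this
  have R2 : y ^ 2 - 1 = 2 * ((1 - a) * v4 * v5 + (1 - b) * v3 * v5 + (1 - c) * v3 * v4) := by
    have := hz2
    rw [hV, inner_comb h3 h4 h5 ha hb hc] at this
    rw [← hys]
    linear_combination this
  have hg' : g = (1 + ξ) * y - ((1 - a) * (u4 * v5 + u5 * v4) + (1 - b) * (u3 * v5 + u5 * v3)
      + (1 - c) * (u3 * v4 + u4 * v3)) := by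
    have := hg
    rw [hU, hV, inner_comb h3 h4 h5 ha hb hc] at this
    rw [← hx, ← hys]
    linear_combination -this
  -- `S` is positive
  have hS' : S = 4 * (1 - c) * (1 - b) - ((1 - c) + (1 - b) - (1 - a)) ^ 2 := by rw [hS]; ring
  have d1 : ⟪e4 - e3, e4 - e3⟫_ℝ = 2 * (1 - c) := by
    rw [inner_sub_self, h3, h4, hc']; ring
  have d2 : ⟪e5 - e3, e5 - e3⟫_ℝ = 2 * (1 - b) := by
    rw [inner_sub_self, h3, h5, hb']; ring
  have d12 : ⟪e4 - e3, e5 - e3⟫_ℝ = (1 - c) + (1 - b) - (1 - a) := by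
    rw [inner_sub_left, inner_sub_right, inner_sub_right, ha, hc', hb, h3]; ring
  have hS0 : 0 < S := by
    have h0 : 0 ≤ S := by
      have := real_inner_mul_inner_self_le (e4 - e3) (e5 - e3)
      rw [d1, d2, d12] at this
      rw [hS']; linear_combination this
    rcases eq_or_lt_of_le h0 with h | h
    · exfalso
      have hw : (2 * (1 - c)) • (e5 - e3) - ((1 - c) + (1 - b) - (1 - a)) • (e4 - e3) = 0 := by
        apply (inner_self_eq_zero (𝕜 := ℝ)).1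
        rw [inner_sub_self, real_inner_smul_left, real_inner_smul_right, real_inner_smul_left,
          real_inner_smul_right, real_inner_smul_left, real_inner_smul_right, d1, d2,
          real_inner_comm (e4 - e3) (e5 - e3), d12]
        have : 4 * (1 - c) * (1 - b) - ((1 - c) + (1 - b) - (1 - a)) ^ 2 = 0 := by
          rw [← hS']; exact h.symm
        linear_combination (2 * (1 - c)) * this
      have := noncol h3 h4 h5 h34 h35 h45 ((1 - c) + (1 - b) - (1 - a)) (-(2 * (1 - c))) (by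
        rw [← hw]; module)
      have := this.2
      linarith
    · exact h
  have key := alg1 (1 - a) (1 - b) (1 - c) u3 u4 u5 v3 v4 v5 H S (ξ * (y - 1)) g (1 + ξ) y
    (by rw [hS]; ring) hS0.ne' (by rw [← hΔ, hS]; ring) hx.symm hys.symm (by ring) hμ.ne' R1 R2
    (by rw [P3]; ring) (by rw [P4]; ring) (by rw [P5]; ring) hg'
  -- the inequality
  have hH1 : H < 1 := by
    have : S * (1 - H) = 2 * ((1 - a) * (1 - b) * (1 - c)) := by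
      linear_combination hΔ + hS
    have h2 : 0 < S * (1 - H) := by
      rw [this]
      have := mul_pos (mul_pos (sub_pos.2 la) (sub_pos.2 lb)) (sub_pos.2 lc)
      linarith
    have := (mul_pos_iff_of_pos_left hS0).1 h2
    linarith
  have NU : ⟪N, z1 + ξ • N⟫_ℝ = 2 * H * (1 + ξ) := by
    rw [inner_add_right, real_inner_smul_right, hHdef, hξ]; ring
  set U := z1 + ξ • N with hUdef
  have w1 : ⟪U - ((1 + ξ) / 2) • N, U - ((1 + ξ) / 2) • N⟫_ℝ = 1 - H * (1 + ξ) ^ 2 := by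
    rw [inner_sub_self, real_inner_smul_left, real_inner_smul_right, real_inner_smul_right, hUU,
      real_inner_comm N U, NU, hHdef]
    ring
  have w2 : ⟪z2 - (y / 2) • N, z2 - (y / 2) • N⟫_ℝ = 1 - H * y ^ 2 := by
    rw [inner_sub_self, real_inner_smul_left, real_inner_smul_right, real_inner_smul_right, hz2,
      real_inner_comm N z2, hy, hHdef]
    ring
  have w12 : ⟪U - ((1 + ξ) / 2) • N, z2 - (y / 2) • N⟫_ℝ = g - H * (1 + ξ) * y := by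
    rw [inner_sub_left, inner_sub_right, inner_sub_right, real_inner_smul_left,
      real_inner_smul_left, real_inner_smul_right, real_inner_smul_right, hg,
      real_inner_comm N U, NU, hy, hHdef]
    ring
  have cs := real_inner_mul_inner_self_le (U - ((1 + ξ) / 2) • N) (z2 - (y / 2) • N)
  have p1 : 0 ≤ ⟪U - ((1 + ξ) / 2) • N, U - ((1 + ξ) / 2) • N⟫_ℝ := real_inner_self_nonneg
  have p2 : 0 ≤ ⟪z2 - (y / 2) • N, z2 - (y / 2) • N⟫_ℝ := real_inner_self_nonneg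
  rw [w1] at p1
  rw [w2] at p2
  rw [w1, w2, w12] at cs
  have hμ2 : 0 < ((1 + ξ) - 1) * (y - 1) := by
    have : ((1 + ξ) - 1) * (y - 1) = ξ * (y - 1) := by ring
    rw [this]; exact hμ
  refine ineq H (1 + ξ) y g hH0 hH1 (by linarith) (by linarith) ?_ hμ2 ?_
  · linear_combination cs
  · rw [key]; ring

end Pool.Agent.U308.Sph
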